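import Pool.Agent.W798.SP.Stm2
import Pool.Agent.W135.SPX.EX

/-!
# Sum-product (exponent 226/169): existence of the extensions by a random ratio
-/

set_option autoImplicit false
set_option linter.unusedSectionVars false

open Finset
open scoped Classical Pointwise

namespace Pool.Agent.W342.SPY.EX2

open Pool.Agent.W904.AK Pool.Agent.W798.SP Pool.Agent.W135.SPX.EX

/-- Conditional entropy is at most the average logarithm of the number of values. -/
lemma CH_le_avg {Ω γ α : Type} [Fintype Ω] {p : Ω → ℝ} (hp : IsLaw p) (Q : Ω → γ) (f : Ω → α)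
    (F : γ → Finset α) (hF : ∀ ω, p ω ≠ 0 → f ω ∈ F (Q ω)) :
    CH p Q f ≤ ∑ ω, p ω * Real.log ((F (Q ω)).card : ℝ) := by
  rw [CH_eq_sum hp]
  refine Finset.sum_le_sum fun ω _ => ?_
  by_cases h : p ω = 0
  · simp [h]
  refine mul_le_mul_of_nonneg_left ?_ (hp.nonneg ω)
  refine H_le_card (cd_law hp Q (im_pos hp Q h).ne') f (F (Q ω)) ?_
  intro x hx
  unfold cd at hx
  by_cases hQ : Q x = Q ω
  · rw [if_pos hQ] at hx
    have hpx : p x ≠ 0 := fun h0 => hx (by rw [h0, zero_div])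
    rw [← hQ]
    exact hF x hpx
  · rw [if_neg hQ] at hx
    exact absurd rfl hx

/-- EX2. -/
theorem tEX2 (h0 : S_KB) (h1 : S_RB) (h2 : S_TR) : S_EX2 := by
  intro Ω _ A p l u n i hA hpos hB hi
  have hp := hB.law
  have hT := h2 A p l u n hpos hB
  have hl1 := p1_law (Lam := zz l) hA hp
  -- the law `P` and its variables
  set P : (Ω × Ω) × ↥A → ℝ := p1 A p (zz l) with hP
  set W : (Ω × Ω) × ↥A → ℝ × ℝ :=
    fun t => (u i t.1.1 * (t.2 : ℝ), u 2 t.1.1 * u i t.1.2) with hW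
  have hsupp : ∀ t, P t ≠ 0 → zz l t.1.1 = zz l t.1.2 ∧ p t.1.1 ≠ 0 ∧ p t.1.2 ≠ 0 :=
    fun t ht => p1_supp ht
  have hT1 : Tri P (fun t => zz l t.1.1) (fun k t => u k t.1.1) n := by
    refine ⟨hl1, ?_⟩
    obtain ⟨c, S, hS, hr⟩ := hT.rel
    exact ⟨c, S, hS, fun t ht => hr t.1.1 (hsupp t ht).2.1⟩
  have hfibA : ∀ (a : ℝ) {x : ℝ}, x ∈ fib A a → x ∈ A := fun a x hx =>
    (Finset.mem_filter.1 hx).1
  have hfibA' : ∀ (a : ℝ) {x : ℝ}, x ∈ fib A a → a * x ∈ A := fun a x hx =>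
    (Finset.mem_filter.1 hx).2
  have eH1 : ∀ {α : Type} (f : Ω → α), H P (fun t => f t.1.1) = H p f := fun f =>
    p1_H_fst hA hp f
  have e1 : CH P (fun t => zz l t.1.1) (fun t => (zz u t.1.1, ((t.2 : ℝ), u i t.1.2))) =
      CH p (zz l) (zz u) + (Real.log A.card + CH p (zz l) (u i)) := by
    have a := p1_H_all (Lam := zz l) hA hp (zz u) (u i)
    have b := eH1 (zz l)
    unfold CH at a ⊢
    rw [b]
    linarith
  have e2 : CH P (fun t => zz l t.1.1) (fun t => ((t.2 : ℝ), u i t.1.2)) =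
      Real.log A.card + CH p (zz l) (u i) := by
    have a := p1_H_all (Lam := zz l) hA hp (fun _ => ()) (u i)
    have b := eH1 (zz l)
    have c : H P (fun t => (zz l t.1.1, ((t.2 : ℝ), u i t.1.2))) =
        H P (fun t => (zz l t.1.1, ((), ((t.2 : ℝ), u i t.1.2)))) :=
      H_congr hl1 (Det.mk' (fun w => (w.1, ((), w.2))) fun _ _ => rfl)
        (Det.mk' (fun w => (w.1, w.2.2)) fun _ _ => rfl)
    have d : H p (fun ω => (zz l ω, ())) = H p (zz l) :=
      H_congr hp (Det.fst _ _ _) (Det.pair (Det.refl _ _) (Det.of_unit _ _))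
    unfold CH at a ⊢
    rw [c, b]
    linarith
  have e3 : CH P (fun t => zz l t.1.1) (fun t => zz u t.1.1) = CH p (zz l) (zz u) := by
    have a := eH1 (fun ω => (zz l ω, zz u ω))
    have b := eH1 (zz l)
    unfold CH
    rw [a, b]
  have e4 : CH P (fun t => zz l t.1.1) (fun t => u i t.1.1) = CH p (zz l) (u i) := by
    have a := eH1 (fun ω => (zz l ω, u i ω))
    have b := eH1 (zz l)
    unfold CH
    rw [a, b]
  have hxy : ∀ t, P t ≠ 0 → (t.2 : ℝ) ∈ A ∧ u i t.1.2 ≠ 0 := fun t ht =>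
    ⟨t.2.2, (hpos _ (hfibA _ (hB.mem _ (hsupp t ht).2.2 i))).ne'⟩
  have him : ∀ a, im P (fun t => (zz l t.1.1, u i t.1.2)) a =
      im P (fun t => (zz l t.1.1, u i t.1.1)) a := by
    intro a
    have a1 := p1_im_fst (Lam := zz l) hA hp (fun ω => (zz l ω, u i ω)) a
    have a2 := p1_im_snd (Lam := zz l) hA hp (fun ω => (zz l ω, u i ω)) a
    have a3 : im P (fun t => (zz l t.1.1, u i t.1.2)) a =
        im P (fun t => (zz l t.1.2, u i t.1.2)) a :=
      im_congr (fun t ht => by rw [(hsupp t ht).1]) a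
    exact a3.trans (a2.trans a1.symm)
  have e3' : CH P (fun t => zz l t.1.1) (zz (fun k (t : (Ω × Ω) × ↥A) => u k t.1.1)) =
    CH p (zz l) (zz u) := e3
  have hR := h1 A P (fun t => zz l t.1.1) (fun k t => u k t.1.1) n (fun t => (t.2 : ℝ))
    (fun t => u i t.1.2) i 2 hpos hT1 hi hxy him
    (by
      rw [e3', e4]
      exact e1)
  rw [e3'] at hR
  have hK := h0 A P (fun t => zz l t.1.1) (fun k t => u k t.1.1) n (fun t => (t.2 : ℝ))
    (fun t => u i t.1.2) i hpos hT1 hxy him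
    (by
      rw [e4]
      exact e2)
  rw [e3'] at hK
  -- the values of `W`
  have hW1 : ∀ t, P t ≠ 0 → W t ∈ (A * A) ×ˢ (A * A) := by
    intro t ht
    obtain ⟨-, b1, b2⟩ := hsupp t ht
    exact Finset.mem_product.2 ⟨Finset.mul_mem_mul (hfibA _ (hB.mem _ b1 i)) t.2.2,
      Finset.mul_mem_mul (hfibA _ (hB.mem _ b1 2)) (hfibA _ (hB.mem _ b2 i))⟩
  have hHW : H P W ≤ 2 * Real.log (A * A).card := by
    refine (H_le_card hl1 W _ hW1).trans ?_
    rw [Finset.card_product, Nat.cast_mul, ← pow_two, Real.log_pow]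
    norm_num
  have hsub : H P (fun t => (zz l t.1.1, W t)) + H p (l i.castSucc) ≤
      H p (zz l) + H P (fun t => (l i.castSucc t.1.1, W t)) := by
    have a := submod' hl1 (f := fun t => zz l t.1.1) (g := fun t => (l i.castSucc t.1.1, W t))
      (h := fun t => l i.castSucc t.1.1) (k := fun t => (zz l t.1.1, W t))
      (Det.mk' (fun v => v i.castSucc) fun _ _ => rfl) (Det.fst _ _ _)
      (Det.mk' (fun v => (v.1, v.2.2)) fun _ _ => rfl)
    rw [eH1 (zz l), eH1 (l i.castSucc)] at a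
    exact a
  have hneW : ∀ t, P t ≠ 0 → (t.2 : ℝ) ≠ 0 ∧ u i t.1.2 ≠ 0 ∧ u i t.1.1 ≠ 0 ∧ u 2 t.1.1 ≠ 0 := by
    intro t ht
    obtain ⟨-, b1, b2⟩ := hsupp t ht
    exact ⟨(hpos _ t.2.2).ne', (hpos _ (hfibA _ (hB.mem _ b2 i))).ne',
      (hpos _ (hfibA _ (hB.mem _ b1 i))).ne', (hpos _ (hfibA _ (hB.mem _ b1 2))).ne'⟩
  have hratio : ∀ t, P t ≠ 0 →
      u i t.1.1 / (u 2 t.1.1 * (u i t.1.2 / (t.2 : ℝ))) = (W t).1 / (W t).2 := by
    intro t ht
    obtain ⟨c1, c2, c3, c4⟩ := hneW t ht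
    show _ = (u i t.1.1 * (t.2 : ℝ)) / (u 2 t.1.1 * u i t.1.2)
    field_simp
  have hW2 : ∀ t, P t ≠ 0 → (W t).2 ≠ 0 := by
    intro t ht
    obtain ⟨c1, c2, c3, c4⟩ := hneW t ht
    exact mul_ne_zero c4 c2
  -- the slope
  have hslope : ∀ t, P t ≠ 0 → l i.castSucc t.1.1 * (W t).1 ∈ A * A ∧
      l i.castSucc t.1.1 * (W t).2 ∈ A * A := by
    intro t ht
    obtain ⟨b0, b1, b2⟩ := hsupp t ht
    constructor
    · have : l i.castSucc t.1.1 * (W t).1 = (l i.castSucc t.1.1 * u i t.1.1) * (t.2 : ℝ) := by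
        show l i.castSucc t.1.1 * (u i t.1.1 * (t.2 : ℝ)) = _
        ring
      rw [this]
      exact Finset.mul_mem_mul (hfibA' _ (hB.mem _ b1 i)) t.2.2
    · have h3 : l i.castSucc t.1.1 = l i.castSucc t.1.2 := congrFun b0 i.castSucc
      have : l i.castSucc t.1.1 * (W t).2 = u 2 t.1.1 * (l i.castSucc t.1.2 * u i t.1.2) := by
        show l i.castSucc t.1.1 * (u 2 t.1.1 * u i t.1.2) = _
        rw [h3]
        ring
      rw [this]
      exact Finset.mul_mem_mul (hfibA _ (hB.mem _ b1 2)) (hfibA' _ (hB.mem _ b2 i))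
  have havg := CH_le_avg hl1 W (fun t => l i.castSucc t.1.1)
    (fun w => (fib (A * A) (w.1 / w.2)).image (fun z => z / w.2))
    (by
      intro t ht
      obtain ⟨s1, s2⟩ := hslope t ht
      have hw2 := hW2 t ht
      refine Finset.mem_image.2 ⟨l i.castSucc t.1.1 * (W t).2, ?_, ?_⟩
      · refine Finset.mem_filter.2 ⟨s2, ?_⟩
        have : (W t).1 / (W t).2 * (l i.castSucc t.1.1 * (W t).2) =
            l i.castSucc t.1.1 * (W t).1 := by
          field_simp
        rw [this]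
        exact s1
      · show l i.castSucc t.1.1 * (W t).2 / (W t).2 = l i.castSucc t.1.1
        field_simp)
  refine ⟨(Ω × Ω) × ↥A, inferInstance, P, fun t => zz l t.1.1, fun k t => u k t.1.1,
    fun t => u i t.1.2 / (t.2 : ℝ), hl1, ?_, ?_, ?_, hK, ?_⟩
  · intro a
    exact p1_im_fst (Lam := zz l) hA hp (fun ω => (zz l ω, zz u ω)) a
  · intro t ht
    obtain ⟨c1, c2, c3, c4⟩ := hneW t ht
    obtain ⟨b0, b1, b2⟩ := hsupp t ht
    refine ⟨div_ne_zero c2 c1, Finset.div_mem_div (hfibA _ (hB.mem _ b2 i)) t.2.2, c3, c4, ?_⟩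
    rw [Nat.one_le_iff_ne_zero, ← Nat.pos_iff_ne_zero, Finset.card_pos]
    obtain ⟨w1, w2⟩ := Finset.mem_product.1 (hW1 t ht)
    refine ⟨(W t).2, Finset.mem_filter.2 ⟨w2, ?_⟩⟩
    show u i t.1.1 / (u 2 t.1.1 * (u i t.1.2 / (t.2 : ℝ))) * (W t).2 ∈ A * A
    rw [hratio t ht, div_mul_cancel₀ _ (hW2 t ht)]
    exact w1
  · have dk : Det P (fun t => (zz l t.1.1, ((t.2 : ℝ), u i t.1.2)))
        (fun t => u i t.1.2 / (t.2 : ℝ)) :=
      Det.mk' (fun w => w.2.2 / w.2.1) fun _ _ => rfl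
    have s1 := CH_submod hl1 (Q := fun t => zz l t.1.1)
      (f := fun t => ((t.2 : ℝ), u i t.1.2)) (g := fun t => (zz u t.1.1, u i t.1.2 / (t.2 : ℝ)))
      (h := fun t => u i t.1.2 / (t.2 : ℝ))
      (k := fun t => (zz u t.1.1, ((t.2 : ℝ), u i t.1.2)))
      dk (Det.mk' (fun w => w.2.2) fun _ _ => rfl)
      (Det.mk' (fun w => (w.2.2.1, w.2.1)) fun _ _ => rfl)
    have s2 := CH_subadd hl1 (Q := fun t => zz l t.1.1) (f := fun t => zz u t.1.1)
      (g := fun t => u i t.1.2 / (t.2 : ℝ)) (k := fun t => (zz u t.1.1, u i t.1.2 / (t.2 : ℝ)))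
      (Det.mk' (fun w => (w.2.1, w.2.2)) fun _ _ => rfl)
    rw [e1, e2] at s1
    show CH P (fun t => zz l t.1.1) (fun t => (zz u t.1.1, u i t.1.2 / (t.2 : ℝ))) =
      CH P (fun t => zz l t.1.1) (fun t => zz u t.1.1) +
        CH P (fun t => zz l t.1.1) (fun t => u i t.1.2 / (t.2 : ℝ))
    rw [e3] at s2 ⊢
    linarith
  · have c1 : CH P W (fun t => l i.castSucc t.1.1) =
        H P (fun t => (l i.castSucc t.1.1, W t)) - H P W := by
      unfold CH
      rw [H_congr hl1 (f := fun t => (W t, l i.castSucc t.1.1))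
        (g := fun t => (l i.castSucc t.1.1, W t))
        (Det.mk' (fun w => (w.2, w.1)) fun _ _ => rfl)
        (Det.mk' (fun w => (w.2, w.1)) fun _ _ => rfl)]
    have b4 : CH P (fun t => zz l t.1.1) (fun t => (u i t.1.1 * (t.2 : ℝ),
        u 2 t.1.1 * u i t.1.2)) = H P (fun t => (zz l t.1.1, W t)) - H p (zz l) := by
      unfold CH
      rw [eH1 (zz l)]
    rw [b4] at hR
    have c2 : ∑ t, P t * Real.log ((((fib (A * A) ((W t).1 / (W t).2)).image
        (fun z => z / (W t).2)).card : ℕ) : ℝ) ≤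
        ∑ t, P t * Real.log ((fib (A * A) (u i t.1.1 / (u 2 t.1.1 *
          (u i t.1.2 / (t.2 : ℝ))))).card : ℝ) := by
      refine Finset.sum_le_sum fun t _ => ?_
      by_cases h : P t = 0
      · simp [h]
      refine mul_le_mul_of_nonneg_left ?_ (hl1.nonneg t)
      rw [hratio t h]
      obtain ⟨w1, w2⟩ := Finset.mem_product.1 (hW1 t h)
      have hne : ((fib (A * A) ((W t).1 / (W t).2)).image (fun z => z / (W t).2)).Nonempty := by
        refine Finset.Nonempty.image ⟨(W t).2, Finset.mem_filter.2 ⟨w2, ?_⟩⟩ _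
        rw [div_mul_cancel₀ _ (hW2 t h)]
        exact w1
      refine Real.log_le_log (by exact_mod_cast Finset.card_pos.2 hne) ?_
      exact_mod_cast Finset.card_image_le
    have c3 := havg.trans c2
    rw [c1] at c3
    linarith

end Pool.Agent.W342.SPY.EX2
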